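import Pool.Agent.H38.Baire.Lib

/-!
The monoid of injections of `ℕ` that are onto or have infinite co-image carries exactly two
Polish semigroup topologies.
-/

namespace Pool.Agent.H38.Two

open Set Filter Topology Function Pool.Agent.H38.Baire

theorem polish_iInter {P : Type} [TopologicalSpace P] [PolishSpace P] {ι : Type} [Countable ι]
    [Nonempty ι] {U : ι → Set P} (hU : ∀ i, IsOpen (U i)) : PolishSpace (⋂ i, U i : Set P) := by
  have := fun i => (hU i).polishSpace
  obtain ⟨i0⟩ := ‹Nonempty ι›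
  let e : (⋂ i, U i : Set P) → ∀ i, U i := fun x i => ⟨x.1, mem_iInter.1 x.2 i⟩
  have hc : Continuous e := continuous_pi fun i => continuous_subtype_val.subtype_mk _
  have he : IsEmbedding e := IsEmbedding.of_comp hc
    (g := fun y : ∀ i, U i => (y i0).1) (by fun_prop) IsEmbedding.subtypeVal
  refine IsClosedEmbedding.polishSpace (f := e) ⟨he, ?_⟩
  have : range e = ⋂ i, {y : ∀ i, U i | (y i).1 = (y i0).1} := by
    ext y
    simp only [mem_range, mem_iInter, mem_ofPred_eq]
    exact ⟨by rintro ⟨x, rfl⟩ i; rfl, fun h =>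
      ⟨⟨(y i0).1, mem_iInter.2 fun i => h i ▸ (y i).2⟩, funext fun i => Subtype.ext (h i).symm⟩⟩
  rw [this]
  exact isClosed_iInter fun i => isClosed_eq (by fun_prop) (by fun_prop)

theorem polish_induced {S P : Type} [TopologicalSpace P] [PolishSpace P] {ι : Type} [Countable ι]
    [Nonempty ι] {U : ι → Set P} (hU : ∀ i, IsOpen (U i)) {j : S → P} (hj : Injective j)
    (hr : range j = ⋂ i, U i) : @PolishSpace S (TopologicalSpace.induced j inferInstance) := by
  letI : TopologicalSpace S := TopologicalSpace.induced j inferInstance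
  have := polish_iInter hU
  rw [← hr] at this
  exact (IsEmbedding.toHomeomorph (f := j) ⟨⟨rfl⟩, hj⟩).isClosedEmbedding.polishSpace

theorem baire_closed {P : Type} [TopologicalSpace P] [PolishSpace P] {ι : Type} [Countable ι]
    {T : Set P} (hT : IsClosed T) (hne : T.Nonempty) {C : ι → Set P} (hC : ∀ i, IsClosed (C i))
    (h : T ⊆ ⋃ i, C i) : ∃ i O, IsOpen O ∧ (O ∩ T).Nonempty ∧ O ∩ T ⊆ C i := by
  have := hT.polishSpace
  have := hne.to_subtype
  obtain ⟨i, x, hx⟩ := nonempty_interior_of_iUnion_of_closed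
    (f := fun i => (Subtype.val : T → P) ⁻¹' C i) (fun i => (hC i).preimage continuous_subtype_val)
    (eq_univ_of_forall fun x => by simpa using h x.2)
  obtain ⟨O, hO, e⟩ := isOpen_induced_iff.1 (isOpen_interior (s := (Subtype.val : T → P) ⁻¹' C i))
  refine ⟨i, O, hO, ⟨x.1, by rw [← e] at hx; exact hx, x.2⟩, fun y hy => ?_⟩
  have : (⟨y, hy.2⟩ : T) ∈ interior ((Subtype.val : T → P) ⁻¹' C i) := by rw [← e]; exact hy.1
  exact (interior_subset this : (⟨y, hy.2⟩ : T) ∈ (Subtype.val : T → P) ⁻¹' C i)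

@[ext] structure S where
  f : ℕ → ℕ
  inj : Injective f
  cond : Surjective f ∨ (range f)ᶜ.Infinite

def BL (x : S) : Prop := (range x.f)ᶜ.Infinite

theorem bl_comp_left {f g : ℕ → ℕ} (h : (range f)ᶜ.Infinite) : (range (f ∘ g))ᶜ.Infinite :=
  h.mono (compl_subset_compl.2 (range_comp_subset_range _ _))

theorem bl_comp_right {f g : ℕ → ℕ} (hf : Injective f) (h : (range g)ᶜ.Infinite) :
    (range (f ∘ g))ᶜ.Infinite :=
  (h.image hf.injOn).mono (by rintro _ ⟨a, ha, rfl⟩ ⟨b, hb⟩; exact ha ⟨b, hf hb⟩)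

instance : Monoid S where
  mul x y := ⟨x.f ∘ y.f, x.inj.comp y.inj, x.cond.elim (fun h => y.cond.imp h.comp
    (bl_comp_right x.inj)) fun h => Or.inr (bl_comp_left h)⟩
  mul_assoc _ _ _ := rfl
  one := ⟨id, injective_id, Or.inl surjective_id⟩
  one_mul _ := rfl
  mul_one _ := rfl

@[simp] theorem mul_f (x y : S) (n : ℕ) : (x * y).f n = x.f (y.f n) := rfl
@[simp] theorem one_f (n : ℕ) : (1 : S).f n = n := rfl

theorem BL.mul_right {x : S} (h : BL x) (y : S) : BL (x * y) := bl_comp_left (g := y.f) h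
theorem BL.mul_left {y : S} (h : BL y) (x : S) : BL (x * y) := bl_comp_right (g := y.f) x.inj h
theorem BL.not_surj {x : S} (h : BL x) : ¬ Surjective x.f := fun h' => by
  simp [BL, h'.range_eq] at h

def ofP (g : Equiv.Perm ℕ) : S := ⟨g, g.injective, Or.inl g.surjective⟩

@[simp] theorem ofP_f (g : Equiv.Perm ℕ) (n : ℕ) : (ofP g).f n = g n := rfl
@[simp] theorem ofP_one : ofP 1 = 1 := rfl
theorem ofP_mul (g h : Equiv.Perm ℕ) : ofP (g * h) = ofP g * ofP h := rfl

theorem ex_perm {x : S} (h : Surjective x.f) : ∃ g, ofP g = x :=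
  ⟨Equiv.ofBijective x.f ⟨x.inj, h⟩, rfl⟩

open Classical in
noncomputable def ext' (f k w : ℕ → ℕ) (n : ℕ) : ℕ := if h : n ∈ range f then k h.choose else w n

theorem ext'_f {f k w : ℕ → ℕ} (hf : Injective f) (n : ℕ) : ext' f k w (f n) = k n := by
  have : f n ∈ range f := ⟨n, rfl⟩
  rw [ext', dif_pos this, hf this.choose_spec]

theorem ext'_w {f k w : ℕ → ℕ} {n : ℕ} (h : n ∉ range f) : ext' f k w n = w n := dif_neg h

theorem ext'_inj {f k w : ℕ → ℕ} (hf : Injective f) (hk : Injective k)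
    (hw : InjOn w (range f)ᶜ) (hw' : ∀ n ∉ range f, w n ∉ range k) : Injective (ext' f k w) := by
  intro a b h
  by_cases ha : a ∈ range f <;> by_cases hb : b ∈ range f
  · obtain ⟨a, rfl⟩ := ha
    obtain ⟨b, rfl⟩ := hb
    rw [ext'_f hf, ext'_f hf] at h; rw [hk h]
  · obtain ⟨a, rfl⟩ := ha
    rw [ext'_f hf, ext'_w hb] at h
    exact (hw' b hb ⟨a, h⟩).elim
  · obtain ⟨b, rfl⟩ := hb
    rw [ext'_f hf, ext'_w ha] at h
    exact (hw' a ha ⟨b, h.symm⟩).elim
  · rw [ext'_w ha, ext'_w hb] at h; exact hw ha hb h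

theorem div (x : S) {k : S} (hk : BL k) {m m1 z : ℕ} (h1 : m1 ∉ range k.f) (hz : z ∉ range k.f)
    (hne : z ≠ m1) : ∃ e : S, BL e ∧ e * x = k ∧ z ∉ range e.f ∧ (m ∉ range x.f → e.f m = m1) := by
  classical
  have hinf : ((range k.f)ᶜ \ {z, m1}).Infinite := hk.sdiff (toFinite _)
  let u := hinf.natEmbedding
  have hu : ∀ n, (u n).1 ∉ range k.f ∧ (u n).1 ≠ z ∧ (u n).1 ≠ m1 := fun n => by
    have := (u n).2
    simp only [Set.mem_sdiff, mem_compl_iff, mem_insert_iff, mem_singleton_iff, not_or] at this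
    exact this
  have hui : ∀ {a b}, (u a).1 = (u b).1 → a = b := fun h => u.injective (Subtype.ext h)
  let w : ℕ → ℕ := fun n => if n = m then m1 else (u (2 * n)).1
  have hr : ∀ y, y ∈ range (ext' x.f k.f w) → y ∈ range k.f ∨ y = m1 ∨ ∃ n, y = (u (2 * n)).1 := by
    rintro _ ⟨n, rfl⟩
    by_cases hn : n ∈ range x.f
    · obtain ⟨n, rfl⟩ := hn
      exact Or.inl ⟨n, (ext'_f x.inj n).symm⟩
    · rw [ext'_w hn]; simp only [w]; split_ifs
      · exact Or.inr (Or.inl rfl)
      · exact Or.inr (Or.inr ⟨n, rfl⟩)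
  have hbl : (range (ext' x.f k.f w))ᶜ.Infinite :=
    infinite_of_injective_forall_mem (f := fun n => (u (2 * n + 1)).1)
      (fun a b h => by have := hui h; omega) fun n h => by
        rcases hr _ h with h | h | ⟨n', h⟩
        · exact (hu _).1 h
        · exact (hu _).2.2 h
        · have := hui h; omega
  refine ⟨⟨ext' x.f k.f w, ext'_inj x.inj k.inj (fun a _ b _ h => ?_) fun n _ => ?_, Or.inr hbl⟩,
    hbl, S.ext (funext fun n => ext'_f (k := k.f) (w := w) x.inj n), fun h => ?_, fun h => ?_⟩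
  · simp only [w] at h
    split_ifs at h with h1 h2 h2
    · rw [h1, h2]
    · exact ((hu _).2.2 h.symm).elim
    · exact ((hu _).2.2 h).elim
    · have := hui h; omega
  · simp only [w]; split_ifs
    · exact h1
    · exact (hu _).1
  · rcases hr _ h with h | h | ⟨n', h⟩
    · exact hz h
    · exact hne h
    · exact (hu _).2.1 h.symm
  · simp [ext'_w h, w]

theorem perm_ex {x y : S} (hx : BL x) (hy : BL y) (A : Finset ℕ)
    (h1 : ∀ n, x.f n ∈ A → y.f n = x.f n) (h2 : ∀ a ∈ A, a ∉ range x.f → a ∉ range y.f) :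
    ∃ g : Equiv.Perm ℕ, ofP g * x = y ∧ ∀ a ∈ A, g a = a := by
  classical
  have := (hx.sdiff A.finite_toSet).to_subtype
  have := (hy.sdiff A.finite_toSet).to_subtype
  obtain ⟨β⟩ : Nonempty (((range x.f)ᶜ \ A : Set ℕ) ≃ ((range y.f)ᶜ \ A : Set ℕ)) :=
    nonempty_equiv_of_countable
  let w : ℕ → ℕ := fun n => if h : n ∈ ((range x.f)ᶜ \ A : Set ℕ) then (β ⟨n, h⟩).1 else n
  have hw1 : ∀ n ∈ A, w n = n := fun n hn => dif_neg fun h => h.2 hn
  have hw2 : ∀ n (h : n ∈ ((range x.f)ᶜ \ A : Set ℕ)), w n = (β ⟨n, h⟩).1 := fun n h => dif_pos h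
  have inj : Injective (ext' x.f y.f w) := by
    refine ext'_inj x.inj y.inj (fun a ha b hb h => ?_) fun n hn => ?_
    · by_cases ha' : a ∈ A <;> by_cases hb' : b ∈ A
      · rwa [hw1 a ha', hw1 b hb'] at h
      · rw [hw1 a ha', hw2 b ⟨hb, hb'⟩] at h
        exact ((β ⟨b, hb, hb'⟩).2.2 (h ▸ ha')).elim
      · rw [hw1 b hb', hw2 a ⟨ha, ha'⟩] at h
        exact ((β ⟨a, ha, ha'⟩).2.2 (h ▸ hb')).elim
      · rw [hw2 a ⟨ha, ha'⟩, hw2 b ⟨hb, hb'⟩] at h
        simpa using β.injective (Subtype.ext h)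
    · by_cases hn' : n ∈ A
      · rw [hw1 n hn']; exact h2 n hn' hn
      · rw [hw2 n ⟨hn, hn'⟩]; exact (β _).2.1
  have fix : ∀ a ∈ A, ext' x.f y.f w a = a := fun a ha => by
    by_cases h : a ∈ range x.f
    · obtain ⟨n, rfl⟩ := h
      rw [ext'_f x.inj, h1 n ha]
    · rw [ext'_w h, hw1 a ha]
  have surj : Surjective (ext' x.f y.f w) := fun b => by
    by_cases hb : b ∈ range y.f
    · obtain ⟨n, rfl⟩ := hb
      exact ⟨_, ext'_f x.inj n⟩
    · by_cases hb' : b ∈ A
      · exact ⟨b, fix b hb'⟩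
      · refine ⟨(β.symm ⟨b, hb, hb'⟩).1, ?_⟩
        rw [ext'_w (β.symm _).2.1, hw2 _ (β.symm _).2]; simp
  exact ⟨Equiv.ofBijective _ ⟨inj, surj⟩, S.ext (funext fun n => ext'_f (k := y.f) (w := w) x.inj n),
    fix⟩

def dbl (N : ℕ) : S := ⟨fun n => if n < N then n else 2 * n, fun a b h => by
    simp only at h; split_ifs at h <;> omega, Or.inr
  (infinite_of_injective_forall_mem (f := fun n => 2 * (N + n) + 1)
    (fun a b h => by simp only at h; omega) fun n ⟨a, h⟩ => by
      simp only at h; split_ifs at h <;> omega)⟩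

theorem bl_dbl (N : ℕ) : BL (dbl N) :=
  infinite_of_injective_forall_mem (f := fun n => 2 * (N + n) + 1)
    (fun a b h => by simp only at h; omega) fun n ⟨a, h⟩ => by
      simp only [dbl] at h; split_ifs at h <;> omega

open Classical in
noncomputable def im (x : S) (m : ℕ) : Bool := decide (m ∈ range x.f)

open Classical in
noncomputable def sj (x : S) : Bool := decide (Surjective x.f)

theorem cont_iff {X Y : Type} [TopologicalSpace X] [TopologicalSpace Y] [DiscreteTopology Y]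
    {f : X → Y} : Continuous f ↔ ∀ x, ∀ᶠ y in 𝓝 x, f y = f x := by
  rw [← IsLocallyConstant.iff_continuous, IsLocallyConstant.iff_eventually_eq]

section classify

variable [TopologicalSpace S] [PolishSpace S] [ContinuousMul S]

theorem ev (a : ℕ) : Continuous fun x : S => x.f a := by
  let P : ℕ → ℕ → ℕ → Set S := fun a' c d =>
    {x | ofP (Equiv.swap c d) * x = x * ofP (Equiv.swap a a')}
  have hP : ∀ a' c d, IsClosed (P a' c d) := fun _ _ _ => isClosed_eq (by fun_prop) (by fun_prop)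
  have h1 : ∀ (x : S) a', x ∈ P a' (x.f a) (x.f a') := fun x a' =>
    S.ext (funext fun n => (x.inj.swap_apply a a' n))
  have h2 : ∀ (x : S) a' c d, a' ≠ a → x ∈ P a' c d → x.f a = c ∨ x.f a = d := by
    intro x a' c d h hx
    by_contra hc
    push Not at hc
    have := congrArg (fun y : S => y.f a) hx
    simp only [mul_f, ofP_f, Equiv.swap_apply_left, Equiv.swap_apply_of_ne_of_ne hc.1 hc.2] at this
    exact h (x.inj this).symm
  obtain ⟨⟨⟨c, d, d'⟩, hd⟩, O, hO, hne, hsub⟩ := baire_closed (T := closure {x | BL x})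
    isClosed_closure ⟨dbl 0, subset_closure (bl_dbl 0)⟩
    (C := fun p : {p : ℕ × ℕ × ℕ // p.2.1 ≠ p.2.2} =>
      P (a + 1) p.1.1 p.1.2.1 ∩ P (a + 2) p.1.1 p.1.2.2)
    (fun p => (hP _ _ _).inter (hP _ _ _)) fun x _ => mem_iUnion.2
      ⟨⟨(x.f a, x.f (a + 1), x.f (a + 2)), fun h => by simpa using x.inj h⟩, h1 x _, h1 x _⟩
  have h3 : ∀ x ∈ O, BL x → x.f a = c := fun x hx hb => by
    obtain ⟨h4, h5⟩ := hsub ⟨hx, subset_closure hb⟩
    have := h2 _ _ _ _ (by omega) h4
    have := h2 _ _ _ _ (by omega) h5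
    have hd' : d ≠ d' := hd
    simp only at *
    omega
  obtain ⟨y, hy1, hy2⟩ := hne
  obtain ⟨k, hk1, hk2⟩ := mem_closure_iff.1 hy2 O hO hy1
  obtain ⟨m1, h4, z, h5, h6⟩ := hk2.nontrivial
  refine cont_iff.2 fun x => ?_
  obtain ⟨e, he, e1, -⟩ := div x hk2 (m := 0) h4 h5 h6.symm
  have : ∀ᶠ y in 𝓝 x, e * y ∈ O :=
    (continuous_const.mul continuous_id).continuousAt.preimage_mem_nhds
      (hO.mem_nhds (by simpa [e1] using hk1))
  filter_upwards [this] with y hy
  refine e.inj ((h3 _ hy (he.mul_right y)).trans (h3 _ hk1 hk2).symm |>.trans ?_)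
  rw [← e1]; rfl

theorem closed_K (m : ℕ) : IsClosed {x : S | m ∉ range x.f} := by
  have : {x : S | m ∉ range x.f} = ⋂ a, {x : S | x.f a = m}ᶜ := by ext x; simp
  rw [this]
  exact isClosed_iInter fun a => ((isOpen_discrete {m}).preimage (ev a)).isClosed_compl

theorem imc (m : ℕ) : Continuous fun x : S => im x m := by
  let k0 : S := ofP (Equiv.swap 0 1) * dbl 0
  obtain ⟨⟨m1, hm1⟩, O, hO, ⟨k, hk1, hk2⟩, hsub⟩ := baire_closed (closed_K 0)
    ⟨k0, fun ⟨a, h⟩ => by
      have := (Equiv.swap 0 1).injective (h.trans (Equiv.swap_apply_right 0 1).symm)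
      simp only [dbl] at this; split_ifs at this <;> omega⟩
    (C := fun p : {p : ℕ // p ≠ 0} => {x : S | p.1 ∉ range x.f}) (fun p => closed_K _)
    fun x hx => by
      obtain ⟨p, h1, h2⟩ := (x.cond.resolve_left fun h => hx (h 0)).exists_gt 0
      exact mem_iUnion.2 ⟨⟨p, by omega⟩, h1⟩
  refine cont_iff.2 fun x => ?_
  by_cases hx : m ∈ range x.f
  · filter_upwards [(closed_K m).isOpen_compl.mem_nhds (by simpa using hx)] with y hy
    have : m ∈ range y.f := by simpa using hy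
    simp only [im, this, hx]
  · obtain ⟨e, -, e1, e2, e3⟩ := div x (k.cond.resolve_left fun h => hk2 (h 0)) (m := m)
      (hsub ⟨hk1, hk2⟩) hk2 hm1.symm
    have : ∀ᶠ y in 𝓝 x, e * y ∈ O :=
      (continuous_const.mul continuous_id).continuousAt.preimage_mem_nhds
        (hO.mem_nhds (by simpa [e1] using hk1))
    filter_upwards [this] with y hy
    have : m ∉ range y.f := fun ⟨a, ha⟩ =>
      hsub ⟨hy, fun ⟨b, hb⟩ => e2 ⟨_, hb⟩⟩ ⟨a, by rw [mul_f, ha, e3 hx]⟩
    simp only [im, this, hx]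

theorem stab {U : Set S} (hU : U ∈ 𝓝 (1 : S)) :
    ∃ A : Finset ℕ, ∀ g : Equiv.Perm ℕ, (∀ a ∈ A, g a = a) → ofP g ∈ U := by
  classical
  obtain ⟨V, hV, hV1, hVU⟩ := exists_open_nhds_one_split hU
  let W : Set (Equiv.Perm ℕ) := {g | ofP g ∈ V ∧ ofP g⁻¹ ∈ V}
  obtain ⟨s, hs, hcov⟩ : ∃ s : Set (Equiv.Perm ℕ), s.Countable ∧
      ⋃ g ∈ s, (fun h => g⁻¹ * h) ⁻¹' W = univ := by
    letI : TopologicalSpace (Equiv.Perm ℕ) :=
      TopologicalSpace.induced (fun g => (ofP g, ofP g⁻¹)) inferInstance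
    haveI : SecondCountableTopology (Equiv.Perm ℕ) :=
      TopologicalSpace.secondCountableTopology_induced _ _ _
    have hc : Continuous fun g : Equiv.Perm ℕ => (ofP g, ofP g⁻¹) := continuous_induced_dom
    refine TopologicalSpace.countable_cover_nhds fun g => IsOpen.mem_nhds ?_ ?_
    · have : (fun h => g⁻¹ * h) ⁻¹' W = (fun h => ofP g⁻¹ * ofP h) ⁻¹' V ∩
          (fun h => ofP h⁻¹ * ofP g) ⁻¹' V := by
        ext h; simp [W, ofP_mul]
      rw [this]
      exact (hV.preimage (continuous_const.mul hc.fst)).inter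
        (hV.preimage (hc.snd.mul continuous_const))
    · simpa [W] using hV1
  let j : Equiv.Perm ℕ → (ℕ → ℕ) × (ℕ → ℕ) := fun g => (g, ⇑(g⁻¹))
  letI : TopologicalSpace (Equiv.Perm ℕ) := TopologicalSpace.induced j inferInstance
  have hc : Continuous j := continuous_induced_dom
  haveI : PolishSpace (Equiv.Perm ℕ) := by
    refine IsClosedEmbedding.polishSpace (f := j) ⟨⟨⟨rfl⟩, fun g h e =>
      Equiv.ext (congrFun (congrArg Prod.fst e))⟩, ?_⟩
    have : range j = ⋂ n, ({p : (ℕ → ℕ) × (ℕ → ℕ) | p.2 (p.1 n) = n} ∩ {p | p.1 (p.2 n) = n}) := by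
      ext p
      simp only [mem_range, mem_iInter, mem_inter_iff, mem_ofPred_eq]
      exact ⟨by rintro ⟨g, rfl⟩ n; simp [j], fun h =>
        ⟨⟨p.1, p.2, fun n => (h n).1, fun n => (h n).2⟩, rfl⟩⟩
    rw [this]
    have e : Continuous fun q : ℕ × (ℕ → ℕ) => q.2 q.1 :=
      continuous_prod_of_discrete_left.2 fun a => by dsimp only; fun_prop
    exact isClosed_iInter fun n => (isClosed_eq (e.comp (f := fun p : (ℕ → ℕ) × (ℕ → ℕ) =>
      (p.1 n, p.2)) (by fun_prop)) continuous_const).inter (isClosed_eq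
        (e.comp (f := fun p : (ℕ → ℕ) × (ℕ → ℕ) => (p.2 n, p.1)) (by fun_prop)) continuous_const)
  have hL : ∀ g : Equiv.Perm ℕ, Continuous fun h : Equiv.Perm ℕ => g * h := fun g =>
    continuous_induced_rng.2 (Continuous.prodMk
      (continuous_pi fun n => (continuous_of_discreteTopology (f := g)).comp
        ((continuous_apply n).comp hc.fst))
      (continuous_pi fun n => (continuous_apply (g⁻¹ n)).comp hc.snd))
  let L : Equiv.Perm ℕ → Equiv.Perm ℕ ≃ₜ Equiv.Perm ℕ := fun g =>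
    ⟨Equiv.mulLeft g, hL g, hL g⁻¹⟩
  have hW : BaireMeasurableSet W := by
    borelize S (Equiv.Perm ℕ)
    have h1 : MeasurableSet (S.f '' V) := hV.measurableSet.image_of_continuousOn_injOn
      (continuous_pi ev).continuousOn fun a _ b _ h => S.ext h
    have : W = (fun g => (j g).1) ⁻¹' (S.f '' V) ∩ (fun g => (j g).2) ⁻¹' (S.f '' V) := by
      have : ∀ x : S, x.f ∈ S.f '' V ↔ x ∈ V := fun x =>
        ⟨fun ⟨y, h, e⟩ => S.ext e ▸ h, fun h => ⟨x, h, rfl⟩⟩
      ext g; exact and_congr (this (ofP g)).symm (this (ofP g⁻¹)).symm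
    rw [this]
    exact ((hc.fst.measurable h1).inter (hc.snd.measurable h1)).baireMeasurableSet
  obtain ⟨O, hO, hWO⟩ := hW.residualEq_isOpen
  obtain ⟨g0, hg0⟩ : O.Nonempty := by
    by_contra hne
    rw [not_nonempty_iff_eq_empty] at hne
    have h1 : IsMeagre W := hWO.mono fun x hx h => by
      have : x ∈ O := (iff_of_eq hx).1 h
      simp [hne] at this
    have h2 := isMeagre_biUnion hs fun g _ =>
      h1.preimage_of_isOpenMap (hL g⁻¹) (L g⁻¹).isOpenMap
    rw [hcov] at h2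
    exact not_isMeagre_of_isOpen isOpen_univ univ_nonempty h2
  obtain ⟨O', hO', e⟩ := mem_nhds_induced j g0 O |>.1 (hO.mem_nhds hg0)
  obtain ⟨U1, hU1, U2, hU2, h12⟩ := mem_nhds_prod_iff.1 hO'
  obtain ⟨J1, hJ1⟩ := nhds_supp hU1
  obtain ⟨J2, hJ2⟩ := nhds_supp hU2
  refine ⟨J1.image g0 ∪ J2, fun g hg => ?_⟩
  have h1 : g * g0 ∈ O := e (h12 ⟨hJ1 _ fun a ha => hg _ (by simp; exact Or.inl ha),
    hJ2 _ fun a ha => by
      have := hg a (by simp [ha])
      simp only [j, mul_inv_rev, Equiv.Perm.coe_mul, comp_apply]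
      rw [Equiv.Perm.inv_eq_iff_eq.2 this.symm]⟩)
  obtain ⟨w, ⟨h2, h3⟩, h4, h5⟩ := (dense_of_mem_residual (inter_mem hWO
    (tendsto_residual_of_isOpenMap (hL g) (L g).isOpenMap hWO))).inter_open_nonempty _
    (hO.inter (hO.preimage (hL g))) ⟨g0, hg0, h1⟩
  have h6 : w ∈ W := (iff_of_eq h4).2 h2
  have h7 : g * w ∈ W := (iff_of_eq h5).2 h3
  have := hVU _ h7.1 _ h6.2
  rwa [← ofP_mul, mul_inv_cancel_right] at this

theorem stab' {x : S} {U : Set S} (hU : U ∈ 𝓝 x) :
    ∃ A : Finset ℕ, ∀ y : S, sj y = sj x → (∀ n, x.f n ∈ A → y.f n = x.f n) →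
      (∀ a ∈ A, im y a = im x a) → y ∈ U := by
  obtain ⟨A, hA⟩ := stab ((continuous_id.mul continuous_const).continuousAt.preimage_mem_nhds
    (x := 1) (t := U) (by simpa using hU))
  refine ⟨A, fun y h1 h2 h3 => ?_⟩
  simp only [sj, decide_eq_decide] at h1
  rcases x.cond with hx | hx
  · obtain ⟨g, rfl⟩ := ex_perm hx
    obtain ⟨h, rfl⟩ := ex_perm (h1.2 hx)
    have := hA (h * g⁻¹) fun a ha => by simpa using h2 (g⁻¹ a) (by simpa using ha)
    simpa [← ofP_mul] using this
  · obtain ⟨g, rfl, hg⟩ := perm_ex hx (y.cond.resolve_left fun h => BL.not_surj hx (h1.1 h)) A h2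
      fun a ha h => by simpa [im, h] using h3 a ha
    exact hA g hg

theorem stab2 (hd : ¬ Continuous sj) {x : S} (hx : Surjective x.f) {U : Set S} (hU : U ∈ 𝓝 x) :
    ∃ A : Finset ℕ, ∀ y : S, (∀ n, x.f n ∈ A → y.f n = x.f n) → y ∈ U := by
  have h1 : (1 : S) ∈ closure {y | BL y} := by
    by_contra hc
    refine hd (cont_iff.2 fun y => ?_)
    rcases y.cond with hy | hy
    · obtain ⟨g, rfl⟩ := ex_perm hy
      have : ∀ᶠ z in 𝓝 (ofP g), ofP g⁻¹ * z ∈ (closure {y | BL y})ᶜ :=
        (continuous_const.mul continuous_id).continuousAt.preimage_mem_nhds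
          (isClosed_closure.isOpen_compl.mem_nhds (by simpa [← ofP_mul] using hc))
      filter_upwards [this] with z hz
      have : Surjective z.f := z.cond.resolve_right fun h =>
        hz (subset_closure (BL.mul_left h _))
      simp only [sj, this, hy]
    · obtain ⟨m, hm⟩ := hy.nonempty
      filter_upwards [cont_iff.1 (imc m) y] with z hz
      have : ¬ Surjective z.f := fun h => by
        simp only [im, decide_eq_decide] at hz
        exact hm (hz.1 (h m))
      simp only [sj, this, BL.not_surj hy]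
  obtain ⟨g, rfl⟩ := ex_perm hx
  obtain ⟨V, hV, hVU⟩ := exists_nhds_one_split
    ((continuous_id.mul continuous_const).continuousAt.preimage_mem_nhds
      (x := 1) (t := U) (by simpa using hU))
  obtain ⟨A, hA⟩ := stab hV
  refine ⟨A, fun y hy => ?_⟩
  have h2 : ∀ a ∈ A, (y * ofP g⁻¹).f a = a := fun a ha => by
    simpa using hy (g⁻¹ a) (by simpa using ha)
  have h3 : y = y * ofP g⁻¹ * ofP g := by simp [mul_assoc, ← ofP_mul]
  rw [h3]
  generalize y * ofP g⁻¹ = z at h2
  rcases z.cond with hz | hz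
  · obtain ⟨h, rfl⟩ := ex_perm hz
    simpa using hVU _ (hA h h2) _ (mem_of_mem_nhds hV)
  · obtain ⟨k, ⟨hk1, hk2⟩, hk3⟩ := mem_closure_iff_nhds.1 h1 _ (inter_mem hV
      ((eventually_all_finset A).2 fun a _ => cont_iff.1 (ev a) 1))
    obtain ⟨h, rfl, hh⟩ := perm_ex hk3 hz A (fun n hn => by
      have : k.f n = n := k.inj (hk2 _ hn)
      rw [this] at hn ⊢; exact h2 n hn) fun a ha h => (h ⟨a, hk2 a ha⟩).elim
    exact hVU _ (hA h hh) _ hk1

end classify

noncomputable def j2 (x : S) : (ℕ → ℕ) × (ℕ → Bool) := (x.f, im x)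
noncomputable def j3 (x : S) : ((ℕ → ℕ) × (ℕ → Bool)) × Bool := (j2 x, sj x)

@[reducible] noncomputable def t2 : TopologicalSpace S := .induced j2 inferInstance
@[reducible] noncomputable def t3 : TopologicalSpace S := .induced j3 inferInstance

theorem near [TopologicalSpace S] (h : Continuous j2) (x : S) (A : Finset ℕ) :
    ∀ᶠ y in 𝓝 x, (∀ n, x.f n ∈ A → y.f n = x.f n) ∧ ∀ a ∈ A, im y a = im x a := by
  refine Filter.Eventually.and ?_ ((eventually_all_finset A).2 fun a _ =>
    cont_iff.1 ((continuous_apply a).comp h.snd) x)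
  exact (eventually_all_finite (A.finite_toSet.preimage x.inj.injOn)).2 fun n _ =>
    cont_iff.1 ((continuous_apply n).comp h.fst) x

theorem classify (t : TopologicalSpace S) [PolishSpace S] [ContinuousMul S] :
    t = t2 ∨ t = t3 := by
  have h2 : Continuous j2 := (continuous_pi ev).prodMk (continuous_pi imc)
  by_cases hd : Continuous sj
  · refine Or.inr (le_antisymm (continuous_iff_le_induced.1 (h2.prodMk hd))
      ((le_iff_nhds _ _).2 fun x U hU => ?_))
    obtain ⟨A, hA⟩ := stab' hU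
    letI := t3
    have hc : Continuous j3 := continuous_induced_dom
    filter_upwards [near hc.fst x A, cont_iff.1 hc.snd x] with y h1 h2 using hA y h2 h1.1 h1.2
  · refine Or.inl (le_antisymm (continuous_iff_le_induced.1 h2)
      ((le_iff_nhds _ _).2 fun x U hU => ?_))
    rcases x.cond with hx | hx
    · obtain ⟨A, hA⟩ := stab2 hd hx hU
      letI := t2
      have hc : Continuous j2 := continuous_induced_dom
      filter_upwards [near hc x A] with y h1 using hA y h1.1
    · obtain ⟨A, hA⟩ := stab' hU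
      obtain ⟨m, hm⟩ := hx.nonempty
      letI := t2
      have hc : Continuous j2 := continuous_induced_dom
      filter_upwards [near hc x A, near hc x {m}] with y h1 h2
      refine hA y ?_ h1.1 h1.2
      have : ¬ Surjective y.f := fun h => by
        have := h2.2 m (by simp)
        simp only [im, decide_eq_decide] at this
        exact hm (this.1 (h m))
      simp only [sj, this, BL.not_surj hx]

theorem mul_cont [TopologicalSpace S] (h : Continuous j2) :
    Continuous fun p : S × S => j2 (p.1 * p.2) := by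
  have e1 : ∀ (p : S × S) n, ∀ᶠ q : S × S in 𝓝 p, q.1.f n = p.1.f n := fun p n =>
    cont_iff.1 ((continuous_apply n).comp (h.fst.comp continuous_fst)) p
  have e2 : ∀ (p : S × S) n, ∀ᶠ q : S × S in 𝓝 p, q.2.f n = p.2.f n := fun p n =>
    cont_iff.1 ((continuous_apply n).comp (h.fst.comp continuous_snd)) p
  have e3 : ∀ (p : S × S) n, ∀ᶠ q : S × S in 𝓝 p, im q.1 n = im p.1 n := fun p n =>
    cont_iff.1 ((continuous_apply n).comp (h.snd.comp continuous_fst)) p
  have e4 : ∀ (p : S × S) n, ∀ᶠ q : S × S in 𝓝 p, im q.2 n = im p.2 n := fun p n =>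
    cont_iff.1 ((continuous_apply n).comp (h.snd.comp continuous_snd)) p
  refine Continuous.prodMk (continuous_pi fun n => cont_iff.2 fun p => ?_)
    (continuous_pi fun m => cont_iff.2 fun p => ?_)
  · filter_upwards [e2 p n, e1 p (p.2.f n)] with q h1 h2
    rw [mul_f, mul_f, h1, h2]
  · by_cases hm : m ∈ range p.1.f
    · obtain ⟨k, rfl⟩ := hm
      filter_upwards [e1 p k, e4 p k] with q h1 h2
      simp only [im, decide_eq_decide] at h2 ⊢
      exact ⟨fun ⟨a, ha⟩ => by
        obtain ⟨b, hb⟩ := h2.1 ⟨a, q.1.inj (ha.trans h1.symm)⟩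
        exact ⟨b, by rw [mul_f, hb]⟩, fun ⟨a, ha⟩ => by
        obtain ⟨b, hb⟩ := h2.2 ⟨a, p.1.inj ha⟩
        exact ⟨b, by rw [mul_f, hb, h1]⟩⟩
    · filter_upwards [e3 p m] with q h1
      simp only [im, decide_eq_decide] at h1 ⊢
      exact ⟨fun ⟨a, ha⟩ => (hm (h1.1 ⟨_, ha⟩)).elim, fun ⟨a, ha⟩ => (hm ⟨_, ha⟩).elim⟩

theorem sj_mul (x y : S) : sj (x * y) = (sj x && sj y) := by
  rw [Bool.eq_iff_iff]
  simp only [sj, Bool.and_eq_true, decide_eq_true_eq]
  exact ⟨fun h => ⟨x.cond.resolve_right fun h' => (BL.mul_right h' y).not_surj h,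
    y.cond.resolve_right fun h' => (BL.mul_left h' x).not_surj h⟩, fun h => h.1.comp h.2⟩

def U2 (p : ℕ × ℕ) : Set ((ℕ → ℕ) × (ℕ → Bool)) :=
  {x | x.1 p.1 = x.1 p.2 → p.1 = p.2} ∩ ({x | x.2 p.1 = false} ∪ ⋃ a, {x | x.1 a = p.1}) ∩
    {x | x.2 (x.1 p.1) = true} ∩ ({x | x.2 p.1 = true} ∪ ⋃ a, {x | x.2 (p.1 + 1 + a) = false})

theorem U2_open (p : ℕ × ℕ) : IsOpen (U2 p) := by
  have e : Continuous fun q : ℕ × (ℕ → Bool) => q.2 q.1 :=
    continuous_prod_of_discrete_left.2 fun a => by dsimp only; fun_prop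
  refine ((IsOpen.inter ?_ (IsOpen.union ?_ (isOpen_iUnion fun a => ?_))).inter ?_).inter
    (IsOpen.union ?_ (isOpen_iUnion fun a => ?_))
  · exact (isOpen_discrete {q : ℕ × ℕ | q.1 = q.2 → p.1 = p.2}).preimage
      (f := fun x : (ℕ → ℕ) × (ℕ → Bool) => (x.1 p.1, x.1 p.2)) (by fun_prop)
  · exact (isOpen_discrete {false}).preimage (by fun_prop)
  · exact (isOpen_discrete {p.1}).preimage (by fun_prop)
  · exact (isOpen_discrete {true}).preimage
      (e.comp (f := fun x : (ℕ → ℕ) × (ℕ → Bool) => (x.1 p.1, x.2)) (by fun_prop))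
  · exact (isOpen_discrete {true}).preimage (by fun_prop)
  · exact (isOpen_discrete {false}).preimage (by fun_prop)

theorem range_j2 : range j2 = ⋂ p, U2 p := by
  ext ⟨f, b⟩
  simp only [mem_range, mem_iInter, U2, mem_inter_iff, mem_ofPred_eq, mem_union, mem_iUnion]
  constructor
  · rintro ⟨x, e⟩ p
    obtain ⟨rfl, rfl⟩ := Prod.mk.inj e
    refine ⟨⟨⟨fun h => x.inj h, ?_⟩, by simp [im]⟩, ?_⟩
    · by_cases h : p.1 ∈ range x.f
      · exact Or.inr h
      · exact Or.inl (by simp only [im, h, decide_false])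
    · rcases x.cond with h | h
      · exact Or.inl (by simp only [im, h.range_eq, mem_univ, decide_true])
      · obtain ⟨m, h1, h2⟩ := h.exists_gt p.1
        refine Or.inr ⟨m - p.1 - 1, ?_⟩
        rw [show p.1 + 1 + (m - p.1 - 1) = m by omega]
        simpa [im] using h1
  · intro h
    have hb : ∀ m, b m = true ↔ m ∈ range f := fun m =>
      ⟨fun hm => (h (m, m)).1.1.2.resolve_left (by simp [hm]),
        by rintro ⟨a, rfl⟩; exact (h (a, a)).1.2⟩
    refine ⟨⟨f, fun a a' => (h (a, a')).1.1.1, ?_⟩, Prod.ext rfl (funext fun m => ?_)⟩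
    · by_cases hs : Surjective f
      · exact Or.inl hs
      · refine Or.inr (infinite_of_forall_exists_gt fun n => ?_)
        obtain ⟨m, hm⟩ := not_forall.1 hs
        have : ∀ n, ∃ m' ∉ range f, n ≤ m' := by
          intro n
          induction n with
          | zero => exact ⟨m, hm, Nat.zero_le _⟩
          | succ n ih =>
            obtain ⟨m', h1, h2⟩ := ih
            obtain ⟨a, ha⟩ := (h (m', m')).2.resolve_left (by rwa [hb])
            exact ⟨m' + 1 + a, by rw [← hb]; simpa using ha, by omega⟩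
        exact this (n + 1)
    · simp only [j2, im, ← hb, Bool.decide_eq_true]

instance : PolishSpace ((ℕ → ℕ) × (ℕ → Bool)) := PolishSpace.mk
instance : PolishSpace (((ℕ → ℕ) × (ℕ → Bool)) × Bool) := PolishSpace.mk

theorem j2_inj : Injective j2 := fun _ _ h => S.ext (congrArg Prod.fst h)

theorem good2 : @PolishSpace S t2 ∧ @ContinuousMul S t2 _ :=
  ⟨polish_induced U2_open j2_inj range_j2, by
    letI := t2
    exact ⟨continuous_induced_rng.2 (mul_cont continuous_induced_dom)⟩⟩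

theorem good3 : @PolishSpace S t3 ∧ @ContinuousMul S t3 _ := by
  refine ⟨polish_induced (U := fun p : ℕ × ℕ => Prod.fst ⁻¹' U2 p ∩
    ({x | x.2 = false} ∪ {x | x.1.2 p.1 = true}) ∩ ({x | x.2 = true} ∪ ⋃ a, {x | x.1.2 a = false}))
    (fun p => ?_) (fun _ _ h => j2_inj (congrArg Prod.fst h)) ?_, ?_⟩
  · refine (((U2_open p).preimage continuous_fst).inter (IsOpen.union ?_ ?_)).inter
      (IsOpen.union ?_ (isOpen_iUnion fun a => ?_))
    · exact (isOpen_discrete {false}).preimage (by fun_prop)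
    · exact (isOpen_discrete {true}).preimage (by fun_prop)
    · exact (isOpen_discrete {true}).preimage (by fun_prop)
    · exact (isOpen_discrete {false}).preimage (by fun_prop)
  · ext ⟨q, s⟩
    simp only [mem_range, mem_iInter, mem_inter_iff, mem_ofPred_eq, mem_union, mem_iUnion,
      mem_preimage]
    constructor
    · rintro ⟨x, e⟩ p
      obtain ⟨rfl, rfl⟩ := Prod.mk.inj e
      refine ⟨⟨mem_iInter.1 (range_j2 ▸ mem_range_self x) p, ?_⟩, ?_⟩ <;>
        by_cases h : Surjective x.f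
      · exact Or.inr (by simp only [j2, im, h.range_eq, mem_univ, decide_true])
      · exact Or.inl (by simp [sj, h])
      · exact Or.inl (by simp [sj, h])
      · obtain ⟨m, hm⟩ := not_forall.1 h
        exact Or.inr ⟨m, by simpa [j2, im] using hm⟩
    · intro h
      obtain ⟨x, rfl⟩ : q ∈ range j2 := range_j2 ▸ mem_iInter.2 fun p => (h p).1.1
      refine ⟨x, Prod.ext rfl ?_⟩
      cases s
      · obtain ⟨a, ha⟩ := (h (0, 0)).2.resolve_left (by simp)
        have : ¬ Surjective x.f := fun h => by simp [j2, im, h.range_eq] at ha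
        simp [j3, sj, this]
      · have : Surjective x.f := fun m => by
          simpa [j2, im] using (h (m, m)).1.2
        simp [j3, sj, this]
  · letI := t3
    have hc : Continuous j3 := continuous_induced_dom
    refine ⟨continuous_induced_rng.2 ((mul_cont hc.fst).prodMk ?_)⟩
    simp only [sj_mul]
    exact (continuous_of_discreteTopology (f := fun q : Bool × Bool => q.1 && q.2)).comp
      ((hc.snd.comp continuous_fst).prodMk (hc.snd.comp continuous_snd))

theorem t2_ne : t2 ≠ t3 := by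
  intro e
  letI := t2
  have hc : Continuous sj := by
    have : @Continuous _ _ t3 _ j3 := continuous_induced_dom
    rw [← e] at this
    exact this.snd
  obtain ⟨O', hO', h⟩ := (mem_nhds_induced j2 1 _).1 (cont_iff.1 hc 1)
  obtain ⟨U1, hU1, U2, hU2, h12⟩ := mem_nhds_prod_iff.1 hO'
  obtain ⟨J1, hJ1⟩ := nhds_supp hU1
  obtain ⟨J2, hJ2⟩ := nhds_supp hU2
  obtain ⟨N, hN⟩ := (J1 ∪ J2).exists_nat_subset_range
  have h1 : ∀ a ∈ J1 ∪ J2, (dbl N).f a = a := fun a ha => if_pos (by simpa using hN ha)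
  have := h (a := dbl N) (h12 ⟨hJ1 _ fun a ha => h1 a (by simp [ha]), hJ2 _ fun a ha => by
    simp only [j2, im, decide_eq_decide]
    exact ⟨fun _ => ⟨a, rfl⟩, fun _ => ⟨a, h1 a (by simp [ha])⟩⟩⟩)
  simp only [mem_ofPred_eq, sj, decide_eq_decide] at this
  exact (bl_dbl N).not_surj (this.2 surjective_id)

theorem main : Cardinal.mk
    {t : TopologicalSpace S // @PolishSpace S t ∧ @ContinuousMul S t _} = 2 := by
  rw [Cardinal.mk_eq_two_iff]
  refine ⟨⟨t2, good2⟩, ⟨t3, good3⟩, fun h => t2_ne (congrArg Subtype.val h),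
    eq_univ_of_forall fun ⟨t, h1, h2⟩ => ?_⟩
  simpa using classify t

end Pool.Agent.H38.Two
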